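import Pool.Agent.Y37.NS.Uniq

/-! Local existence for the reduced system, by contraction. -/

open Set Filter Topology MeasureTheory
open scoped BoundedContinuousFunction NNReal

set_option autoImplicit false

namespace Pool.Agent.Y37.NS

open Pool.Agent.Y5

/-- coordinates -/
noncomputable def X (s : ℝ) (z : ℕ × ℝ → ℝ) (t : ℝ) (n : ℕ) : ℝ := (s ^ (8 * n))⁻¹ * z (n, t)

/-- the nonlinearity along a path -/
noncomputable def F (s C : ℝ) (B : ℕ → ℝ) (z : ℕ × ℝ → ℝ) (n : ℕ) (t : ℝ) : ℝ :=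
  s ^ (8 * n) * Nb s C B (X s z t) (X s z t) n

/-- Duhamel -/
noncomputable def U (s C : ℝ) (B : ℕ → ℝ) (d a : ℕ → ℝ) (z : ℕ × ℝ → ℝ) (n : ℕ) (t : ℝ) : ℝ :=
  Real.exp (-(d n * t)) * (a n + ∫ r in (0 : ℝ)..t, Real.exp (d n * r) * F s C B z n r)

/-- clamp -/
noncomputable def cl (τ t : ℝ) : ℝ := max 0 (min τ t)

theorem cl_cont (τ : ℝ) : Continuous (cl τ) := by unfold cl; fun_prop

theorem cl_mem {τ : ℝ} (hτ : 0 ≤ τ) (t : ℝ) : cl τ t ∈ Icc 0 τ :=
  ⟨le_max_left _ _, max_le hτ (min_le_left _ _)⟩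

theorem cl_eq {τ t : ℝ} (ht : t ∈ Icc 0 τ) : cl τ t = t := by
  unfold cl; rw [min_eq_right ht.2, max_eq_right ht.1]

section

variable {s C b : ℝ} {B : ℕ → ℝ}

theorem X_bound (hs : 1 < s) {z : ℕ × ℝ → ℝ} {R : ℝ} (hz : ∀ p, |z p| ≤ R) (t : ℝ) (n : ℕ) :
    s ^ (8 * n) * |X s z t n| ≤ R := by
  have := w8_pos hs n
  unfold X
  rw [abs_mul, abs_inv, abs_of_pos this, ← mul_assoc, mul_inv_cancel₀ this.ne', one_mul]
  exact hz _

theorem w8_step (s : ℝ) (n : ℕ) : s ^ (8 * (n + 1)) ≤ s ^ 8 * s ^ (8 * n) := by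
  rw [← pow_add]; exact le_of_eq (by ring_nf)

theorem F_bound (hs : 1 < s) (hB : ∀ j, |B j| ≤ b) {z : ℕ × ℝ → ℝ} {R : ℝ}
    (hz : ∀ p, |z p| ≤ R) (n : ℕ) (t : ℝ) : |F s C B z n t| ≤ KN s C b (s ^ 8) * R * R := by
  unfold F
  rw [abs_mul, abs_of_pos (w8_pos hs n)]
  exact Nb_bound hs hB (X_bound hs hz t) (w8_pos hs) (w8_mono hs) (w8_step s) (X_bound hs hz t) n

theorem F_sub (hs : 1 < s) (hB : ∀ j, |B j| ≤ b) {z z' : ℕ × ℝ → ℝ} {R δ : ℝ}
    (hz : ∀ p, |z p| ≤ R) (hz' : ∀ p, |z' p| ≤ R) (hd : ∀ p, |z p - z' p| ≤ δ) (n : ℕ) (t : ℝ) :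
    |F s C B z n t - F s C B z' n t| ≤ 2 * KN s C b (s ^ 8) * R * δ := by
  unfold F
  rw [← mul_sub, Nb_sub hs hB (X_bound hs hz t) (X_bound hs hz' t) n, abs_mul,
    abs_of_pos (w8_pos hs n)]
  have hX : ∀ n, s ^ (8 * n) * |X s z t n - X s z' t n| ≤ δ := by
    intro n
    have h1 : X s z t n - X s z' t n = X s (fun p => z p - z' p) t n := by unfold X; ring
    rw [h1]
    exact X_bound hs hd t n
  have h1 := Nb_bound (C := C) hs hB (X_bound hs hz t) (w8_pos hs) (w8_mono hs) (w8_step s) hX n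
  have h2 := Nb_bound (C := C) hs hB hX (w8_pos hs) (w8_mono hs) (w8_step s) (X_bound hs hz' t) n
  have h3 := abs_add_le (Nb s C B (X s z t) (fun k => X s z t k - X s z' t k) n)
    (Nb s C B (fun k => X s z t k - X s z' t k) (X s z' t) n)
  have h4 := w8_pos hs n
  calc _ ≤ s ^ (8 * n) * (|Nb s C B (X s z t) (fun k => X s z t k - X s z' t k) n|
      + |Nb s C B (fun k => X s z t k - X s z' t k) (X s z' t) n|) := by gcongr
    _ ≤ _ := by linarith

theorem F_cont (hs : 1 < s) (hB : ∀ j, |B j| ≤ b) {z : ℕ × ℝ → ℝ} (hc : Continuous z) {R : ℝ}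
    (hz : ∀ p, |z p| ≤ R) (n : ℕ) : Continuous (F s C B z n) := by
  have hX : ∀ m, Continuous fun t => X s z t m := by
    intro m
    unfold X
    exact continuous_const.mul (hc.comp (by fun_prop))
  have hsum : Continuous fun t => ∑' m : ℕ, B (m + 1) * (X s z t (n + 1 + m) * X s z t (n + 1 + m)) := by
    refine continuous_tsum (fun m => by
      have := hX (n + 1 + m)
      fun_prop) (summ_geo hs (b * R * R)) (fun m t => ?_)
    have h := term_bound hs hB (X_bound hs hz t) (w8_pos hs) (w8_mono hs) (X_bound hs hz t) n m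
    have hp : 1 ≤ s ^ (5 * n) * s ^ (8 * n) := by
      rw [← pow_add]; exact one_le_pow₀ hs.le
    refine le_trans ?_ h
    rw [Real.norm_eq_abs]
    exact le_mul_of_one_le_left (abs_nonneg _) hp
  have hfin : Continuous fun t => ∑ i ∈ Finset.range n, s ^ (5 * i) * B (n - i) * X s z t i :=
    continuous_finsetSum _ fun i _ => continuous_const.mul (hX i)
  have h1 := hX (n - 1)
  have h2 := hX n
  have h3 := hX (n + 1)
  unfold F Nb
  split_ifs <;> fun_prop

theorem U_deriv (hs : 1 < s) (hB : ∀ j, |B j| ≤ b) {z : ℕ × ℝ → ℝ} (hc : Continuous z) {R : ℝ}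
    (hz : ∀ p, |z p| ≤ R) (d a : ℕ → ℝ) (n : ℕ) (t : ℝ) :
    HasDerivAt (U s C B d a z n) (-(d n * U s C B d a z n t) + F s C B z n t) t := by
  have hF := F_cont (C := C) hs hB hc hz n
  have hi : Continuous fun r => Real.exp (d n * r) * F s C B z n r := by fun_prop
  have h1 := (hi.integral_hasStrictDerivAt 0 t).hasDerivAt
  have h2 : HasDerivAt (fun r : ℝ => Real.exp (-(d n * r))) (Real.exp (-(d n * t)) * (-(d n))) t := by
    have := ((hasDerivAt_id t).const_mul (d n)).neg.exp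
    simpa using this
  have h3 := h2.mul (h1.const_add (a n))
  refine h3.congr_deriv ?_
  unfold U
  have h4 : Real.exp (-(d n * t)) * Real.exp (d n * t) = 1 := by
    rw [← Real.exp_add]; simp
  calc _ = -(d n * (Real.exp (-(d n * t)) * (a n + ∫ r in (0 : ℝ)..t,
        Real.exp (d n * r) * F s C B z n r))) +
        (Real.exp (-(d n * t)) * Real.exp (d n * t)) * F s C B z n t := by ring
    _ = _ := by rw [h4, one_mul]

theorem int_bound {d t Q : ℝ} (hd : 0 ≤ d) (ht : 0 ≤ t) (_hQ : 0 ≤ Q) {f : ℝ → ℝ} (hf : ∀ r, |f r| ≤ Q) :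
    |Real.exp (-(d * t)) * ∫ r in (0 : ℝ)..t, Real.exp (d * r) * f r| ≤ t * Q := by
  have h1 : ‖∫ r in (0 : ℝ)..t, Real.exp (d * r) * f r‖ ≤ (Real.exp (d * t) * Q) * |t - 0| := by
    apply intervalIntegral.norm_integral_le_of_norm_le_const
    intro r hr
    rw [uIoc_of_le ht] at hr
    rw [Real.norm_eq_abs, abs_mul, abs_of_pos (Real.exp_pos _)]
    have := hf r
    have h3 := hr.2
    gcongr
  rw [Real.norm_eq_abs, sub_zero, abs_of_nonneg ht] at h1
  rw [abs_mul, abs_of_pos (Real.exp_pos _)]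
  have h4 : Real.exp (-(d * t)) * Real.exp (d * t) = 1 := by
    rw [← Real.exp_add]; simp
  calc _ ≤ Real.exp (-(d * t)) * ((Real.exp (d * t) * Q) * t) := by gcongr
    _ = (Real.exp (-(d * t)) * Real.exp (d * t)) * (t * Q) := by ring
    _ = _ := by rw [h4, one_mul]

end

/-- Local existence with a time depending only on the norm. -/
theorem local_ex {s ν C b : ℝ} {B : ℕ → ℝ} (hs : 1 < s) (hν : 0 ≤ ν) (hB : ∀ j, |B j| ≤ b)
    (M : ℝ) : ∃ τ, 0 < τ ∧ ∀ x₀ : ℕ → ℝ, (∀ n, s ^ (8 * n) * |x₀ n| ≤ M) →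
      ∃ x, (∀ n, x n 0 = x₀ n) ∧ CSol s ν C B τ x := by
  have hb : 0 ≤ b := le_trans (abs_nonneg _) (hB 0)
  set K := KN s C b (s ^ 8) with hK
  have hK0 : 0 ≤ K := KN_nonneg hs hb (by positivity)
  set R := |M| + 1 with hR
  have hR1 : 1 ≤ R := by rw [hR]; have := abs_nonneg M; linarith
  have hR0 : 0 < R := by linarith
  set τ := 1 / (4 * K * R ^ 2 + 1) with hτ
  have hden : 0 < 4 * K * R ^ 2 + 1 := by positivity
  have hτ0 : 0 < τ := by positivity
  have hτ1 : τ * (K * R * R) ≤ 1 := by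
    rw [hτ, div_mul_eq_mul_div, div_le_one hden]; nlinarith [mul_nonneg hK0 (sq_nonneg R)]
  have hτ2 : τ * (2 * K * R) ≤ 1 / 2 := by
    rw [hτ, div_mul_eq_mul_div, div_le_div_iff₀ hden (by norm_num)]
    nlinarith [mul_nonneg hK0 hR0.le, mul_nonneg (mul_nonneg hK0 hR0.le) (sub_nonneg.2 hR1)]
  refine ⟨τ, hτ0, fun x₀ hx₀ => ?_⟩
  have hM0 : 0 ≤ M := M_nonneg hs (hx₀ 0)
  have hMR : M ≤ R - 1 := by rw [hR, abs_of_nonneg hM0]; linarith
  set d : ℕ → ℝ := fun n => ν * s ^ (4 * n) with hd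
  have hd0 : ∀ n, 0 ≤ d n := fun n => by positivity
  set a : ℕ → ℝ := fun n => s ^ (8 * n) * x₀ n with ha
  have ha0 : ∀ n, |a n| ≤ M := fun n => by
    rw [ha]; simp only; rw [abs_mul, abs_of_pos (w8_pos hs n)]; exact hx₀ n
  -- the map
  have hU_cont : ∀ z : (ℕ × ℝ) →ᵇ ℝ, Continuous fun p : ℕ × ℝ => U s C B d a z p.1 (cl τ p.2) := by
    intro z
    have hz : ∀ p, |z p| ≤ ‖z‖ := fun p => z.norm_coe_le_norm p
    have h1 : ∀ n, Continuous fun t => U s C B d a z n (cl τ t) := fun n =>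
      (continuous_iff_continuousAt.2 fun t =>
        (U_deriv (C := C) hs hB z.continuous hz d a n t).continuousAt).comp (cl_cont τ)
    exact continuous_prod_of_discrete_left.2 h1
  have hU_bd : ∀ (z : ℕ × ℝ → ℝ) (R' : ℝ), (∀ p, |z p| ≤ R') → ∀ n, ∀ t ∈ Icc 0 τ,
      |U s C B d a z n t| ≤ M + τ * (K * R' * R') := by
    intro z R' hz n t ht
    have hR' : 0 ≤ R' := le_trans (abs_nonneg _) (hz (0, 0))
    have h1 := int_bound (hd0 n) ht.1 (Q := K * R' * R') (by positivity)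
      (fun r => F_bound (C := C) hs hB hz n r)
    unfold U
    rw [mul_add]
    have h2 : |Real.exp (-(d n * t)) * a n| ≤ M := by
      rw [abs_mul, abs_of_pos (Real.exp_pos _)]
      have h3 : Real.exp (-(d n * t)) ≤ 1 := by
        rw [Real.exp_le_one_iff]
        have := mul_nonneg (hd0 n) ht.1
        linarith
      calc _ ≤ 1 * |a n| := by gcongr
        _ ≤ M := by rw [one_mul]; exact ha0 n
    have h3 : t * (K * R' * R') ≤ τ * (K * R' * R') := by
      have := ht.2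
      gcongr
    have h4 := abs_add_le (Real.exp (-(d n * t)) * a n)
      (Real.exp (-(d n * t)) * ∫ r in (0 : ℝ)..t, Real.exp (d n * r) * F s C B z n r)
    linarith
  let Φ : ((ℕ × ℝ) →ᵇ ℝ) → ((ℕ × ℝ) →ᵇ ℝ) := fun z =>
    BoundedContinuousFunction.ofNormedAddCommGroup (fun p : ℕ × ℝ => U s C B d a z p.1 (cl τ p.2))
      (hU_cont z) (M + τ * (K * ‖z‖ * ‖z‖)) (fun p => by
        rw [Real.norm_eq_abs]
        exact hU_bd z ‖z‖ (fun p => z.norm_coe_le_norm p) p.1 _ (cl_mem hτ0.le _))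
  have hΦ : ∀ z p, Φ z p = U s C B d a z p.1 (cl τ p.2) := fun z p => rfl
  have hmaps : MapsTo Φ (Metric.closedBall 0 R) (Metric.closedBall 0 R) := by
    intro z hz
    rw [mem_closedBall_zero_iff] at hz ⊢
    rw [BoundedContinuousFunction.norm_le hR0.le]
    intro p
    rw [Real.norm_eq_abs, hΦ]
    have := hU_bd z R (fun p => (z.norm_coe_le_norm p).trans hz) p.1 _ (cl_mem hτ0.le p.2)
    linarith
  have hcontr : ContractingWith (1 / 2 : ℝ≥0) (hmaps.restrict Φ _ _) := by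
    refine ⟨by rw [← NNReal.coe_lt_coe]; norm_num, ?_⟩
    refine LipschitzWith.of_dist_le_mul ?_
    rintro ⟨z, hz⟩ ⟨z', hz'⟩
    rw [Subtype.dist_eq, Subtype.dist_eq]
    simp only [MapsTo.val_restrict_apply]
    rw [BoundedContinuousFunction.dist_le (by positivity)]
    rintro ⟨n, t⟩
    rw [hΦ, hΦ, Real.dist_eq]
    rw [mem_closedBall_zero_iff] at hz hz'
    have hz1 : ∀ p, |z p| ≤ R := fun p => (z.norm_coe_le_norm p).trans hz
    have hz1' : ∀ p, |z' p| ≤ R := fun p => (z'.norm_coe_le_norm p).trans hz'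
    have hdd : ∀ p, |z p - z' p| ≤ dist z z' := fun p => by
      rw [← Real.dist_eq]; exact BoundedContinuousFunction.dist_coe_le_dist p
    have hct := cl_mem hτ0.le t
    have hF := F_cont (C := C) hs hB z.continuous hz1 n
    have hF' := F_cont (C := C) hs hB z'.continuous hz1' n
    have h1 : U s C B d a z n (cl τ t) - U s C B d a z' n (cl τ t)
        = Real.exp (-(d n * cl τ t)) * ∫ r in (0 : ℝ)..(cl τ t),
          Real.exp (d n * r) * (F s C B z n r - F s C B z' n r) := by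
      unfold U
      rw [← mul_sub]
      congr 1
      rw [add_sub_add_left_eq_sub, ← intervalIntegral.integral_sub]
      · congr 1; ext r; ring
      · exact (by fun_prop : Continuous fun r => Real.exp (d n * r) * F s C B z n r).intervalIntegrable _ _
      · exact (by fun_prop : Continuous fun r => Real.exp (d n * r) * F s C B z' n r).intervalIntegrable _ _
    have hdist : 0 ≤ dist z z' := dist_nonneg
    have h2 := int_bound (hd0 n) hct.1 (Q := 2 * K * R * dist z z') (by positivity)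
      (fun r => F_sub (C := C) hs hB hz1 hz1' hdd n r)
    simp only at h1 ⊢
    rw [h1]
    refine h2.trans ?_
    have h3 : ((1 / 2 : ℝ≥0) : ℝ) = 1 / 2 := by norm_num
    rw [h3]
    calc cl τ t * (2 * K * R * dist z z') ≤ τ * (2 * K * R * dist z z') := by
          have := hct.2
          gcongr
      _ = (τ * (2 * K * R)) * dist z z' := by ring
      _ ≤ 1 / 2 * dist z z' := by gcongr
  obtain ⟨z, hzR, hfix, -⟩ := ContractingWith.exists_fixedPoint' Metric.isClosed_closedBall.isComplete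
    hmaps hcontr (x := 0) (by simp [hR0.le]) (edist_ne_top _ _)
  have hz0 : ∀ p, |z p| ≤ R := fun p => by
    rw [mem_closedBall_zero_iff] at hzR
    exact (z.norm_coe_le_norm p).trans hzR
  have hzU : ∀ n t, z (n, t) = U s C B d a z n (cl τ t) := fun n t => by
    have : Φ z = z := hfix
    conv_lhs => rw [← this]
    exact hΦ z (n, t)
  have hzI : ∀ n, ∀ t ∈ Icc 0 τ, z (n, t) = U s C B d a z n t := fun n t ht => by
    rw [hzU, cl_eq ht]
  refine ⟨fun n t => X s z t n, fun n => ?_, fun n t ht => ?_, R, fun t _ n => X_bound hs hz0 t n⟩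
  · have h1 := hzI n 0 ⟨le_rfl, hτ0.le⟩
    simp only [X]
    rw [h1]
    simp only [U, mul_zero, neg_zero, Real.exp_zero, intervalIntegral.integral_same, add_zero,
      one_mul, ha]
    rw [← mul_assoc, inv_mul_cancel₀ (w8_pos hs n).ne', one_mul]
  · have h1 := ((U_deriv (C := C) hs hB z.continuous hz0 d a n t).const_mul
      ((s ^ (8 * n))⁻¹)).hasDerivWithinAt (s := Icc 0 τ)
    have h2 : HasDerivWithinAt (fun t => X s z t n)
        ((s ^ (8 * n))⁻¹ * (-(d n * U s C B d a z n t) + F s C B z n t)) (Icc 0 τ) t := by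
      refine h1.congr (fun r hr => ?_) ?_
      · simp only [X]; rw [hzI n r hr]
      · simp only [X]; rw [hzI n t ht]
    refine h2.congr_deriv ?_
    rw [vf_eq, ← hzI n t ht]
    have h3 : F s C B z n t = s ^ (8 * n) * Nb s C B (X s z t) (X s z t) n := rfl
    rw [h3]
    have h4 := (w8_pos hs n).ne'
    rw [mul_add, ← mul_assoc _ (s ^ (8 * n)), inv_mul_cancel₀ h4, one_mul]
    congr 1
    simp only [X, hd]
    ring

end Pool.Agent.Y37.NS
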