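import Pool.Agent.Y5.Stm

/-! Estimates for the nonlinearity of the reduced system. -/

open Set Filter Topology MeasureTheory

set_option autoImplicit false

namespace Pool.Agent.Y37.NS

open Pool.Agent.Y5

/-- The polarised nonlinearity. -/
noncomputable def Nb (s C : ℝ) (B : ℕ → ℝ) (u v : ℕ → ℝ) (n : ℕ) : ℝ :=
  (if n = 0 then 0 else C * s ^ (5 * (n - 1)) * (u (n - 1) * v (n - 1)))
  - C * s ^ (5 * n) * (u n * v (n + 1))
  + v n * ∑ i ∈ Finset.range n, s ^ (5 * i) * B (n - i) * u i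
  - s ^ (5 * n) * ∑' m : ℕ, B (m + 1) * (u (n + 1 + m) * v (n + 1 + m))

theorem vf_eq (s ν C : ℝ) (B : ℕ → ℝ) (x : ℕ → ℝ) (n : ℕ) :
    vf s ν C B x n = -(ν * s ^ (4 * n) * x n) + Nb s C B x x n := by
  unfold vf Nb
  have h : (∑' m : ℕ, B (m + 1) * x (n + 1 + m) ^ 2)
      = ∑' m : ℕ, B (m + 1) * (x (n + 1 + m) * x (n + 1 + m)) := by
    congr 1; ext m; ring
  rw [h]
  split_ifs <;> ring

/-- `|u n| ≤ M s^(-8n)` -/
theorem abs_le_of_w {s M : ℝ} (hs : 1 < s) {a : ℝ} {k : ℕ} (h : s ^ k * |a| ≤ M) :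
    |a| ≤ M * (s⁻¹) ^ k := by
  have hp : 0 < s ^ k := by positivity
  rw [inv_pow, ← div_eq_mul_inv, le_div_iff₀ hp]; linarith

theorem M_nonneg {s M : ℝ} (hs : 1 < s) {a : ℝ} {k : ℕ} (h : s ^ k * |a| ≤ M) : 0 ≤ M :=
  le_trans (by positivity) h

/-- terms of the infinite sum: bound in a weight -/
theorem term_bound {s b M A : ℝ} (hs : 1 < s) {B : ℕ → ℝ} (hB : ∀ j, |B j| ≤ b)
    {u v w : ℕ → ℝ} (hu : ∀ n, s ^ (8 * n) * |u n| ≤ M)
    (hw0 : ∀ n, 0 < w n) (hw1 : Monotone w) (hv : ∀ n, w n * |v n| ≤ A) (n m : ℕ) :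
    s ^ (5 * n) * w n * |B (m + 1) * (u (n + 1 + m) * v (n + 1 + m))| ≤ b * M * A * (s⁻¹) ^ m := by
  have hb : 0 ≤ b := le_trans (abs_nonneg _) (hB 0)
  have hM : 0 ≤ M := M_nonneg hs (hu 0)
  have hA : 0 ≤ A := le_trans (mul_nonneg (hw0 0).le (abs_nonneg _)) (hv 0)
  have h1 := hu (n + 1 + m)
  have h2 : w n * |v (n + 1 + m)| ≤ A :=
    le_trans (mul_le_mul_of_nonneg_right (hw1 (by omega)) (abs_nonneg _)) (hv _)
  have h3 : s ^ (5 * n) * |u (n + 1 + m)| ≤ M * (s⁻¹) ^ m := by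
    have h4 := abs_le_of_w hs h1
    calc s ^ (5 * n) * |u (n + 1 + m)| ≤ s ^ (5 * n) * (M * (s⁻¹) ^ (8 * (n + 1 + m))) := by
          gcongr
      _ = M * ((s ^ (5 * n) * (s⁻¹) ^ (5 * n)) * (s⁻¹) ^ (3 * n + 8 + 7 * m) * (s⁻¹) ^ m) := by
          rw [show 8 * (n + 1 + m) = 5 * n + (3 * n + 8 + 7 * m) + m by ring, pow_add, pow_add]
          ring
      _ ≤ M * (1 * 1 * (s⁻¹) ^ m) := by
          have h5 : s ^ (5 * n) * (s⁻¹) ^ (5 * n) = 1 := by
            rw [← mul_pow, mul_inv_cancel₀ (by positivity), one_pow]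
          have h6 : (s⁻¹) ^ (3 * n + 8 + 7 * m) ≤ 1 :=
            pow_le_one₀ (by positivity) (inv_le_one_of_one_le₀ hs.le)
          rw [h5]
          gcongr
      _ = _ := by ring
  rw [abs_mul, abs_mul]
  calc s ^ (5 * n) * w n * (|B (m + 1)| * (|u (n + 1 + m)| * |v (n + 1 + m)|))
      = |B (m + 1)| * (s ^ (5 * n) * |u (n + 1 + m)|) * (w n * |v (n + 1 + m)|) := by ring
    _ ≤ b * (M * (s⁻¹) ^ m) * A := by
        have h7 : 0 ≤ w n * |v (n + 1 + m)| := mul_nonneg (hw0 _).le (abs_nonneg _)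
        have h8 := hB (m + 1)
        gcongr
    _ = _ := by ring

theorem summ_geo {s : ℝ} (hs : 1 < s) (c : ℝ) : Summable fun m : ℕ => c * (s⁻¹) ^ m :=
  (summable_geometric_of_lt_one (by positivity) (inv_lt_one_of_one_lt₀ hs)).mul_left c

theorem w8_pos {s : ℝ} (hs : 1 < s) (n : ℕ) : 0 < s ^ (8 * n) := by positivity

theorem w8_mono {s : ℝ} (hs : 1 < s) : Monotone fun n : ℕ => s ^ (8 * n) := by
  intro m n h
  exact pow_le_pow_right₀ hs.le (by omega)

theorem summ_term {s b M A : ℝ} (hs : 1 < s) {B : ℕ → ℝ} (hB : ∀ j, |B j| ≤ b)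
    {u v : ℕ → ℝ} (hu : ∀ n, s ^ (8 * n) * |u n| ≤ M) (hv : ∀ n, s ^ (8 * n) * |v n| ≤ A) (n : ℕ) :
    Summable fun m : ℕ => B (m + 1) * (u (n + 1 + m) * v (n + 1 + m)) := by
  have h := fun m => term_bound hs hB hu (w8_pos hs) (w8_mono hs) hv n m
  have hp : 1 ≤ s ^ (5 * n) * s ^ (8 * n) := by
    rw [← pow_add]; exact one_le_pow₀ hs.le
  refine Summable.of_norm_bounded (summ_geo hs (b * M * A)) fun m => ?_
  refine le_trans ?_ (h m)
  rw [Real.norm_eq_abs]
  exact le_mul_of_one_le_left (abs_nonneg _) hp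

/-- The constant of the nonlinearity. -/
noncomputable def KN (s C b L : ℝ) : ℝ := |C| * L + |C| + 2 * b * (1 - s⁻¹)⁻¹

theorem KN_nonneg {s C b L : ℝ} (hs : 1 < s) (hb : 0 ≤ b) (hL : 0 ≤ L) : 0 ≤ KN s C b L := by
  have h : 0 < 1 - s⁻¹ := by have := inv_lt_one_of_one_lt₀ hs; linarith
  unfold KN; positivity

theorem Nb_bound {s C b L M A : ℝ} (hs : 1 < s) {B : ℕ → ℝ} (hB : ∀ j, |B j| ≤ b)
    {u v w : ℕ → ℝ} (hu : ∀ n, s ^ (8 * n) * |u n| ≤ M)
    (hw0 : ∀ n, 0 < w n) (hw1 : Monotone w) (hw2 : ∀ n, w (n + 1) ≤ L * w n)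
    (hv : ∀ n, w n * |v n| ≤ A) (n : ℕ) :
    w n * |Nb s C B u v n| ≤ KN s C b L * M * A := by
  have hb : 0 ≤ b := le_trans (abs_nonneg _) (hB 0)
  have hM : 0 ≤ M := M_nonneg hs (hu 0)
  have hA : 0 ≤ A := le_trans (mul_nonneg (hw0 0).le (abs_nonneg _)) (hv 0)
  have hL : 0 ≤ L := by
    have h1 := hw2 0
    have h2 := hw0 0
    have h3 := hw0 (0 + 1)
    by_contra h
    push Not at h
    nlinarith
  have hsi : 0 < 1 - s⁻¹ := by have := inv_lt_one_of_one_lt₀ hs; linarith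
  have hsi0 : 0 < s⁻¹ := by positivity
  have hsi1 : s⁻¹ ≤ 1 := inv_le_one_of_one_le₀ hs.le
  -- the four parts
  have h1 : w n * |if n = 0 then 0 else C * s ^ (5 * (n - 1)) * (u (n - 1) * v (n - 1))|
      ≤ |C| * L * (M * A) := by
    rcases n with _ | k
    · simp; positivity
    · simp only [Nat.add_one_ne_zero, if_false, Nat.add_sub_cancel]
      rw [abs_mul, abs_mul, abs_mul, abs_of_pos (show 0 < s ^ (5 * k) by positivity)]
      have h2 : s ^ (5 * k) * |u k| ≤ M := by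
        refine le_trans (mul_le_mul_of_nonneg_right ?_ (abs_nonneg _)) (hu k)
        exact pow_le_pow_right₀ hs.le (by omega)
      calc w (k + 1) * (|C| * s ^ (5 * k) * (|u k| * |v k|))
          ≤ (L * w k) * (|C| * s ^ (5 * k) * (|u k| * |v k|)) := by
            apply mul_le_mul_of_nonneg_right (hw2 k); positivity
        _ = |C| * L * ((s ^ (5 * k) * |u k|) * (w k * |v k|)) := by ring
        _ ≤ |C| * L * (M * A) := by
            have := hv k
            have h7 : 0 ≤ w k * |v k| := mul_nonneg (hw0 _).le (abs_nonneg _)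
            gcongr
  have h2 : w n * |C * s ^ (5 * n) * (u n * v (n + 1))| ≤ |C| * (M * A) := by
    rw [abs_mul, abs_mul, abs_mul, abs_of_pos (show 0 < s ^ (5 * n) by positivity)]
    have h2 : s ^ (5 * n) * |u n| ≤ M := by
      refine le_trans (mul_le_mul_of_nonneg_right ?_ (abs_nonneg _)) (hu n)
      exact pow_le_pow_right₀ hs.le (by omega)
    have h3 : w n * |v (n + 1)| ≤ A :=
      le_trans (mul_le_mul_of_nonneg_right (hw1 (by omega)) (abs_nonneg _)) (hv _)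
    calc w n * (|C| * s ^ (5 * n) * (|u n| * |v (n + 1)|))
        = |C| * ((s ^ (5 * n) * |u n|) * (w n * |v (n + 1)|)) := by ring
      _ ≤ |C| * (M * A) := by
            have h7 : 0 ≤ w n * |v (n + 1)| := mul_nonneg (hw0 _).le (abs_nonneg _)
            gcongr
  have h3 : w n * |v n * ∑ i ∈ Finset.range n, s ^ (5 * i) * B (n - i) * u i|
      ≤ b * (1 - s⁻¹)⁻¹ * (M * A) := by
    have h4 : |∑ i ∈ Finset.range n, s ^ (5 * i) * B (n - i) * u i| ≤ b * M * (1 - s⁻¹)⁻¹ := by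
      calc |∑ i ∈ Finset.range n, s ^ (5 * i) * B (n - i) * u i|
          ≤ ∑ i ∈ Finset.range n, |s ^ (5 * i) * B (n - i) * u i| :=
            Finset.abs_sum_le_sum_abs _ _
        _ ≤ ∑ i ∈ Finset.range n, b * M * (s⁻¹) ^ i := by
            apply Finset.sum_le_sum
            intro i _
            rw [abs_mul, abs_mul, abs_of_pos (show 0 < s ^ (5 * i) by positivity)]
            have h5 := abs_le_of_w hs (hu i)
            have h6 := hB (n - i)
            calc s ^ (5 * i) * |B (n - i)| * |u i|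
                ≤ s ^ (5 * i) * b * (M * (s⁻¹) ^ (8 * i)) := by gcongr
              _ = b * M * ((s ^ (5 * i) * (s⁻¹) ^ (5 * i)) * (s⁻¹) ^ (2 * i) * (s⁻¹) ^ i) := by
                  rw [show 8 * i = 5 * i + 2 * i + i by ring, pow_add, pow_add]; ring
              _ ≤ b * M * (1 * 1 * (s⁻¹) ^ i) := by
                  have h7 : s ^ (5 * i) * (s⁻¹) ^ (5 * i) = 1 := by
                    rw [← mul_pow, mul_inv_cancel₀ (by positivity), one_pow]
                  have h8 : (s⁻¹) ^ (2 * i) ≤ 1 := pow_le_one₀ hsi0.le hsi1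
                  rw [h7]
                  gcongr
              _ = _ := by ring
        _ ≤ b * M * (1 - s⁻¹)⁻¹ := by
            rw [← Finset.mul_sum]
            apply mul_le_mul_of_nonneg_left _ (by positivity)
            rw [← tsum_geometric_of_lt_one hsi0.le (inv_lt_one_of_one_lt₀ hs)]
            exact (summable_geometric_of_lt_one hsi0.le (inv_lt_one_of_one_lt₀ hs)).sum_le_tsum _
              (fun i _ => by positivity)
    rw [abs_mul]
    calc w n * (|v n| * |∑ i ∈ Finset.range n, s ^ (5 * i) * B (n - i) * u i|)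
        = (w n * |v n|) * |∑ i ∈ Finset.range n, s ^ (5 * i) * B (n - i) * u i| := by ring
      _ ≤ A * (b * M * (1 - s⁻¹)⁻¹) := by
          have := hv n
          gcongr
      _ = _ := by ring
  have h4 : w n * |s ^ (5 * n) * ∑' m : ℕ, B (m + 1) * (u (n + 1 + m) * v (n + 1 + m))|
      ≤ b * (1 - s⁻¹)⁻¹ * (M * A) := by
    have hpos : 0 < s ^ (5 * n) * w n := mul_pos (by positivity) (hw0 n)
    have h5 : |∑' m : ℕ, B (m + 1) * (u (n + 1 + m) * v (n + 1 + m))|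
        ≤ (s ^ (5 * n) * w n)⁻¹ * (b * M * A * (1 - s⁻¹)⁻¹) := by
      have h6 : ∀ m : ℕ, ‖B (m + 1) * (u (n + 1 + m) * v (n + 1 + m))‖
          ≤ ((s ^ (5 * n) * w n)⁻¹ * (b * M * A)) * (s⁻¹) ^ m := by
        intro m
        have h7 := term_bound hs hB hu hw0 hw1 hv n m
        rw [Real.norm_eq_abs, mul_assoc, le_inv_mul_iff₀ hpos]
        exact h7
      have h8 := tsum_of_norm_bounded
        ((hasSum_geometric_of_lt_one hsi0.le (inv_lt_one_of_one_lt₀ hs)).mul_left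
          ((s ^ (5 * n) * w n)⁻¹ * (b * M * A))) h6
      rw [Real.norm_eq_abs] at h8
      linarith
    rw [abs_mul, abs_of_pos (show 0 < s ^ (5 * n) by positivity)]
    calc w n * (s ^ (5 * n) * |∑' m : ℕ, B (m + 1) * (u (n + 1 + m) * v (n + 1 + m))|)
        = (s ^ (5 * n) * w n) * |∑' m : ℕ, B (m + 1) * (u (n + 1 + m) * v (n + 1 + m))| := by ring
      _ ≤ (s ^ (5 * n) * w n) * ((s ^ (5 * n) * w n)⁻¹ * (b * M * A * (1 - s⁻¹)⁻¹)) := by gcongr
      _ = b * M * A * (1 - s⁻¹)⁻¹ := by rw [← mul_assoc, mul_inv_cancel₀ hpos.ne', one_mul]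
      _ = _ := by ring
  have hwn := (hw0 n).le
  unfold Nb KN
  set p1 := (if n = 0 then 0 else C * s ^ (5 * (n - 1)) * (u (n - 1) * v (n - 1))) with hp1
  set p2 := C * s ^ (5 * n) * (u n * v (n + 1)) with hp2
  set p3 := v n * ∑ i ∈ Finset.range n, s ^ (5 * i) * B (n - i) * u i with hp3
  set p4 := s ^ (5 * n) * ∑' m : ℕ, B (m + 1) * (u (n + 1 + m) * v (n + 1 + m)) with hp4
  have h5 : |p1 - p2 + p3 - p4| ≤ |p1| + |p2| + |p3| + |p4| := by
    have := abs_sub (p1 - p2 + p3) p4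
    have := abs_add_le (p1 - p2) p3
    have := abs_sub p1 p2
    linarith
  calc w n * |p1 - p2 + p3 - p4| ≤ w n * (|p1| + |p2| + |p3| + |p4|) := by gcongr
    _ = w n * |p1| + w n * |p2| + w n * |p3| + w n * |p4| := by ring
    _ ≤ |C| * L * (M * A) + |C| * (M * A) + b * (1 - s⁻¹)⁻¹ * (M * A)
        + b * (1 - s⁻¹)⁻¹ * (M * A) := by gcongr
    _ = _ := by ring

/-- difference of the nonlinearity -/
theorem Nb_sub {s C b M A : ℝ} (hs : 1 < s) {B : ℕ → ℝ} (hB : ∀ j, |B j| ≤ b)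
    {x y : ℕ → ℝ} (hx : ∀ n, s ^ (8 * n) * |x n| ≤ M) (hy : ∀ n, s ^ (8 * n) * |y n| ≤ A) (n : ℕ) :
    Nb s C B x x n - Nb s C B y y n
      = Nb s C B x (fun k => x k - y k) n + Nb s C B (fun k => x k - y k) y n := by
  have e1 : (∑' m : ℕ, B (m + 1) * (x (n + 1 + m) * x (n + 1 + m)))
      - (∑' m : ℕ, B (m + 1) * (x (n + 1 + m) * y (n + 1 + m)))
      = ∑' m : ℕ, B (m + 1) * (x (n + 1 + m) * (x (n + 1 + m) - y (n + 1 + m))) := by
    rw [← (summ_term hs hB hx hx n).tsum_sub (summ_term hs hB hx hy n)]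
    congr 1; ext m; ring
  have e2 : (∑' m : ℕ, B (m + 1) * (x (n + 1 + m) * y (n + 1 + m)))
      - (∑' m : ℕ, B (m + 1) * (y (n + 1 + m) * y (n + 1 + m)))
      = ∑' m : ℕ, B (m + 1) * ((x (n + 1 + m) - y (n + 1 + m)) * y (n + 1 + m)) := by
    rw [← (summ_term hs hB hx hy n).tsum_sub (summ_term hs hB hy hy n)]
    congr 1; ext m; ring
  have e3 : (∑ i ∈ Finset.range n, s ^ (5 * i) * B (n - i) * x i)
      - (∑ i ∈ Finset.range n, s ^ (5 * i) * B (n - i) * y i)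
      = ∑ i ∈ Finset.range n, s ^ (5 * i) * B (n - i) * (x i - y i) := by
    rw [← Finset.sum_sub_distrib]
    apply Finset.sum_congr rfl
    intro i _; ring
  unfold Nb
  simp only [← e1, ← e2, ← e3]
  split_ifs <;> ring

end Pool.Agent.Y37.NS
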