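import Pool.Agent.Y37.NS.Nl

/-! Uniqueness and propagation of weights for the reduced system. -/

open Set Filter Topology MeasureTheory

set_option autoImplicit false

namespace Pool.Agent.Y37.NS

open Pool.Agent.Y5

/-- one mode -/
theorem mode {T d lam D c : ℝ} (hd : 0 ≤ d) (hlam : 0 < lam) (hc : 0 ≤ c) (hD : 0 ≤ D)
    {w f : ℝ → ℝ} (hw : ∀ t ∈ Icc 0 T, HasDerivWithinAt w (-(d * w t) + f t) (Icc 0 T) t)
    (h0 : |w 0| ≤ D) (hf : ∀ t ∈ Icc 0 T, |f t| ≤ c * Real.exp (lam * t)) :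
    ∀ t ∈ Icc 0 T, |w t| ≤ (D + c / lam) * Real.exp (lam * t) := by
  intro t ht
  have hv : ∀ r ∈ Icc 0 T, HasDerivWithinAt (fun r => Real.exp (d * r) * w r)
      (Real.exp (d * r) * f r) (Icc 0 T) r := by
    intro r hr
    have h1 : HasDerivAt (fun r : ℝ => Real.exp (d * r)) (Real.exp (d * r) * d) r := by
      have := ((hasDerivAt_id r).const_mul d).exp
      simpa using this
    have h2 := h1.hasDerivWithinAt (s := Icc 0 T) |>.mul (hw r hr)
    exact h2.congr_deriv (by ring)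
  have hcont : ContinuousOn (fun r => Real.exp (d * r) * w r) (Icc 0 T) :=
    fun r hr => (hv r hr).continuousWithinAt
  have hB : ∀ r : ℝ, HasDerivAt (fun r => Real.exp (d * r) * D +
      c / lam * Real.exp ((d + lam) * r))
      (d * Real.exp (d * r) * D + c / lam * ((d + lam) * Real.exp ((d + lam) * r))) r := by
    intro r
    have h1 : HasDerivAt (fun r : ℝ => Real.exp (d * r)) (Real.exp (d * r) * d) r := by
      have := ((hasDerivAt_id r).const_mul d).exp
      simpa using this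
    have h2 : HasDerivAt (fun r : ℝ => Real.exp ((d + lam) * r))
        (Real.exp ((d + lam) * r) * (d + lam)) r := by
      have := ((hasDerivAt_id r).const_mul (d + lam)).exp
      simpa using this
    exact ((h1.mul_const D).add (h2.const_mul (c / lam))).congr_deriv (by ring)
  have hT : 0 ≤ T := le_trans ht.1 ht.2
  have key := image_norm_le_of_norm_deriv_right_le_deriv_boundary (a := 0) (b := T)
    (f' := fun r => Real.exp (d * r) * f r) hcont
    (fun r hr => ((hv r ⟨hr.1, hr.2.le⟩).mono_of_mem_nhdsWithin (by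
      have : Icc r T ∈ 𝓝[Ici r] r := Icc_mem_nhdsGE hr.2
      exact mem_of_superset this (Icc_subset_Icc_left hr.1)))) (by
      simp only [mul_zero, Real.exp_zero, one_mul, mul_one, Real.norm_eq_abs]
      have : 0 ≤ c / lam := by positivity
      linarith) hB (by
      intro r hr
      have h1 := hf r ⟨hr.1, hr.2.le⟩
      rw [Real.norm_eq_abs, abs_mul, abs_of_pos (Real.exp_pos _)]
      have h2 : 0 ≤ d * Real.exp (d * r) * D := by positivity
      have h3 : Real.exp ((d + lam) * r) = Real.exp (d * r) * Real.exp (lam * r) := by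
        rw [← Real.exp_add]; congr 1; ring
      have h4 : Real.exp (d * r) * |f r| ≤ Real.exp (d * r) * (c * Real.exp (lam * r)) := by
        gcongr
      have h5 : c / lam * ((d + lam) * Real.exp ((d + lam) * r))
          = c * (Real.exp (d * r) * Real.exp (lam * r))
            + c / lam * d * (Real.exp (d * r) * Real.exp (lam * r)) := by
        rw [h3]; field_simp; ring
      have h6 : 0 ≤ c / lam * d * (Real.exp (d * r) * Real.exp (lam * r)) := by positivity
      rw [h5]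
      linarith) ht
  simp only [Real.norm_eq_abs, abs_mul, abs_of_pos (Real.exp_pos _)] at key
  have h3 : Real.exp ((d + lam) * t) = Real.exp (d * t) * Real.exp (lam * t) := by
    rw [← Real.exp_add]; congr 1; ring
  rw [h3] at key
  have h4 : Real.exp (d * t) * |w t| ≤ Real.exp (d * t) * ((D + c / lam) * Real.exp (lam * t)) := by
    have h5 : 1 ≤ Real.exp (lam * t) := Real.one_le_exp (mul_nonneg hlam.le ht.1)
    have h6 : Real.exp (d * t) * D ≤ Real.exp (d * t) * (D * Real.exp (lam * t)) := by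
      gcongr
      exact le_mul_of_one_le_right hD h5
    calc Real.exp (d * t) * |w t| ≤ _ := key
      _ ≤ Real.exp (d * t) * (D * Real.exp (lam * t))
          + c / lam * (Real.exp (d * t) * Real.exp (lam * t)) := by linarith
      _ = _ := by ring
  exact le_of_mul_le_mul_left h4 (Real.exp_pos _)

/-- growth of a system with diagonal damping -/
theorem grow {T A₀ D κ : ℝ} (hκ : 0 ≤ κ) (hD : 0 ≤ D) {d : ℕ → ℝ} (hd : ∀ n, 0 ≤ d n)
    {w f : ℕ → ℝ → ℝ}
    (hw : ∀ n, ∀ t ∈ Icc 0 T, HasDerivWithinAt (w n) (-(d n * w n t) + f n t) (Icc 0 T) t)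
    (h0 : ∀ n, |w n 0| ≤ D) (hA : ∀ t ∈ Icc 0 T, ∀ n, |w n t| ≤ A₀)
    (hf : ∀ t ∈ Icc 0 T, ∀ A, (∀ n, |w n t| ≤ A) → ∀ n, |f n t| ≤ κ * A) :
    ∀ n, ∀ t ∈ Icc 0 T, |w n t| ≤ 2 * D * Real.exp ((2 * κ + 1) * t) := by
  set lam := 2 * κ + 1 with hlam
  have hlam0 : 0 < lam := by positivity
  set S := {A : ℝ | 0 ≤ A ∧ ∀ n, ∀ t ∈ Icc 0 T, |w n t| ≤ A * Real.exp (lam * t)} with hS
  have hne : max A₀ 0 ∈ S := by
    refine ⟨le_max_right _ _, fun n t ht => ?_⟩
    have h5 : 1 ≤ Real.exp (lam * t) := Real.one_le_exp (mul_nonneg hlam0.le ht.1)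
    calc |w n t| ≤ max A₀ 0 := le_trans (hA t ht n) (le_max_left _ _)
      _ ≤ _ := le_mul_of_one_le_right (le_max_right _ _) h5
  have hbdd : BddBelow S := ⟨0, fun A hA => hA.1⟩
  have hmem : sInf S ∈ S := by
    refine ⟨le_csInf ⟨_, hne⟩ fun A hA => hA.1, fun n t ht => ?_⟩
    rw [← div_le_iff₀ (Real.exp_pos _)]
    refine le_csInf ⟨_, hne⟩ fun A hA => ?_
    rw [div_le_iff₀ (Real.exp_pos _)]
    exact hA.2 n t ht
  have hstep : D + κ * sInf S / lam ∈ S := by
    refine ⟨by have := hmem.1; positivity, fun n t ht => ?_⟩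
    exact mode (hd n) hlam0 (mul_nonneg hκ hmem.1) hD (hw n) (h0 n)
      (fun r hr => by
        have := hf r hr _ (fun n => hmem.2 n r hr) n
        linarith) t ht
  have h1 : sInf S ≤ D + κ * sInf S / lam := csInf_le hbdd hstep
  have h2 : κ * sInf S / lam ≤ sInf S / 2 := by
    rw [div_le_div_iff₀ hlam0 (by norm_num)]
    have := hmem.1
    nlinarith
  have h3 : sInf S ≤ 2 * D := by linarith
  intro n t ht
  exact le_trans (hmem.2 n t ht) (by gcongr)

/-- a solution on a closed interval -/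
def CSol (s ν C : ℝ) (B : ℕ → ℝ) (T : ℝ) (x : ℕ → ℝ → ℝ) : Prop :=
  (∀ n, ∀ t ∈ Icc 0 T, HasDerivWithinAt (x n) (vf s ν C B (fun m => x m t) n) (Icc 0 T) t) ∧
  ∃ M, ∀ t ∈ Icc 0 T, ∀ n, s ^ (8 * n) * |x n t| ≤ M

theorem RSol.csol {s ν C T T' : ℝ} {B : ℕ → ℝ} {x : ℕ → ℝ → ℝ} (h : RSol s ν C B T x)
    (hT : T' < T) : CSol s ν C B T' x :=
  ⟨fun n t ht => (h.deriv n t ⟨ht.1, lt_of_le_of_lt ht.2 hT⟩).mono
    (fun r hr => ⟨hr.1, lt_of_le_of_lt hr.2 hT⟩), h.bdd T' hT⟩

theorem csol_uniq {s ν C b T : ℝ} {B : ℕ → ℝ} {x y : ℕ → ℝ → ℝ} (hs : 1 < s) (hν : 0 ≤ ν)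
    (hB : ∀ j, |B j| ≤ b) (hx : CSol s ν C B T x) (hy : CSol s ν C B T y)
    (h0 : ∀ n, x n 0 = y n 0) : ∀ n, ∀ t ∈ Icc 0 T, x n t = y n t := by
  obtain ⟨M, hM⟩ := hx.2
  obtain ⟨M', hM'⟩ := hy.2
  intro n t ht
  have hb : 0 ≤ b := le_trans (abs_nonneg _) (hB 0)
  have h0T : (0 : ℝ) ∈ Icc 0 T := ⟨le_rfl, le_trans ht.1 ht.2⟩
  have hM0 : 0 ≤ M := M_nonneg hs (hM 0 h0T 0)
  have hM0' : 0 ≤ M' := M_nonneg hs (hM' 0 h0T 0)
  have hK : 0 ≤ KN s C b (s ^ 8) := KN_nonneg hs hb (by positivity)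
  have hw2 : ∀ n : ℕ, s ^ (8 * (n + 1)) ≤ s ^ 8 * s ^ (8 * n) := by
    intro n; rw [← pow_add]; exact le_of_eq (by ring_nf)
  have key := grow (T := T) (A₀ := M + M') (D := 0) (κ := KN s C b (s ^ 8) * M + KN s C b (s ^ 8) * M')
    (by positivity) le_rfl (d := fun n => ν * s ^ (4 * n)) (fun n => by positivity)
    (w := fun n t => s ^ (8 * n) * (x n t - y n t))
    (f := fun n t => s ^ (8 * n) * (Nb s C B (fun m => x m t) (fun k => x k t - y k t) n
      + Nb s C B (fun k => x k t - y k t) (fun m => y m t) n))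
    (by
      intro n t ht
      have h1 := ((hx.1 n t ht).sub (hy.1 n t ht)).const_mul (s ^ (8 * n))
      rw [vf_eq, vf_eq] at h1
      have h2 := Nb_sub (C := C) hs hB (hM t ht) (hM' t ht) n
      refine h1.congr_deriv ?_
      rw [← h2]; ring)
    (by intro n; simp [h0 n])
    (by
      intro t ht n
      rw [abs_mul, abs_of_pos (w8_pos hs n)]
      have h1 := hM t ht n
      have h2 := hM' t ht n
      have h3 : |x n t - y n t| ≤ |x n t| + |y n t| := abs_sub _ _
      calc s ^ (8 * n) * |x n t - y n t| ≤ s ^ (8 * n) * (|x n t| + |y n t|) := by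
            have := w8_pos hs n
            gcongr
        _ ≤ M + M' := by linarith)
    (by
      intro t ht A hA n
      have hA' : ∀ n, s ^ (8 * n) * |x n t - y n t| ≤ A := by
        intro n
        have := hA n
        rwa [abs_mul, abs_of_pos (w8_pos hs n)] at this
      have h1 := Nb_bound (C := C) hs hB (hM t ht) (w8_pos hs) (w8_mono hs) hw2 hA' n
      have h2 := Nb_bound (C := C) hs hB hA' (w8_pos hs) (w8_mono hs) hw2 (hM' t ht) n
      rw [abs_mul, abs_of_pos (w8_pos hs n)]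
      have h3 := abs_add_le (Nb s C B (fun m => x m t) (fun k => x k t - y k t) n)
        (Nb s C B (fun k => x k t - y k t) (fun m => y m t) n)
      have h4 := w8_pos hs n
      calc _ ≤ s ^ (8 * n) * (|Nb s C B (fun m => x m t) (fun k => x k t - y k t) n|
            + |Nb s C B (fun k => x k t - y k t) (fun m => y m t) n|) := by gcongr
        _ ≤ _ := by linarith) n t ht
  have h5 : |s ^ (8 * n) * (x n t - y n t)| ≤ 0 := by simpa using key
  have h6 : s ^ (8 * n) * (x n t - y n t) = 0 := abs_eq_zero.1 (le_antisymm h5 (abs_nonneg _))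
  have h7 := (w8_pos hs n).ne'
  rcases mul_eq_zero.1 h6 with h | h
  · exact absurd h h7
  · linarith

theorem t_UNIQ : S_UNIQ := by
  intro s ν C b T B x y hs hν hB hx hy h0 n t ht
  exact csol_uniq hs hν hB (RSol.csol hx ht.2) (RSol.csol hy ht.2) h0 n t ⟨ht.1, le_rfl⟩

/-- propagation of the weight `8 + j` -/
theorem weight {s ν C b T : ℝ} {B : ℕ → ℝ} {x : ℕ → ℝ → ℝ} (hs : 1 < s) (hν : 0 ≤ ν)
    (hB : ∀ j, |B j| ≤ b) (hx : CSol s ν C B T x) (j : ℕ) {D : ℝ}
    (h0 : ∀ n, s ^ ((8 + j) * n) * |x n 0| ≤ D) :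
    ∃ M, ∀ t ∈ Icc 0 T, ∀ n, s ^ ((8 + j) * n) * |x n t| ≤ M := by
  obtain ⟨M, hM⟩ := hx.2
  rcases lt_or_ge T 0 with hT | hT
  · exact ⟨0, fun t ht => absurd (le_trans ht.1 ht.2) (not_le.2 hT)⟩
  have h0T : (0 : ℝ) ∈ Icc 0 T := ⟨le_rfl, hT⟩
  have hb : 0 ≤ b := le_trans (abs_nonneg _) (hB 0)
  have hM0 : 0 ≤ M := M_nonneg hs (hM 0 h0T 0)
  have hD0 : 0 ≤ D := M_nonneg hs (h0 0)
  set L := s ^ (8 + j) with hL
  have hL0 : 0 ≤ L := by positivity
  have hK : 0 ≤ KN s C b L := KN_nonneg hs hb hL0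
  refine ⟨2 * D * Real.exp ((2 * (KN s C b L * M) + 1) * T), fun t ht n => ?_⟩
  -- truncated weight
  set R := s ^ (j * n) with hR
  have hR1 : 1 ≤ R := one_le_pow₀ hs.le
  set w : ℕ → ℝ := fun m => s ^ (8 * m) * min (s ^ (j * m)) R with hw
  have hw0 : ∀ m, 0 < w m := fun m => by
    have : 0 < min (s ^ (j * m)) R := lt_min (by positivity) (by positivity)
    have := w8_pos hs m
    positivity
  have hw1 : Monotone w := by
    intro m m' hmm
    have h1 := w8_mono hs hmm
    have h2 : min (s ^ (j * m)) R ≤ min (s ^ (j * m')) R :=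
      min_le_min_right _ (pow_le_pow_right₀ hs.le (Nat.mul_le_mul_left _ hmm))
    have h3 : 0 ≤ min (s ^ (j * m)) R := le_min (by positivity) (by positivity)
    have h4 := (w8_pos hs m').le
    exact mul_le_mul h1 h2 h3 h4
  have hw2 : ∀ m, w (m + 1) ≤ L * w m := by
    intro m
    have h1 : min (s ^ (j * (m + 1))) R ≤ s ^ j * min (s ^ (j * m)) R := by
      rcases le_total (s ^ (j * m)) R with h | h
      · rw [min_eq_left h]
        refine le_trans (min_le_left _ _) (le_of_eq ?_)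
        rw [← pow_add]; ring_nf
      · rw [min_eq_right h]
        exact le_trans (min_le_right _ _) (le_mul_of_one_le_left (by positivity)
          (one_le_pow₀ hs.le))
    have h2 : s ^ (8 * (m + 1)) = s ^ 8 * s ^ (8 * m) := by rw [← pow_add]; ring_nf
    calc w (m + 1) = s ^ (8 * (m + 1)) * min (s ^ (j * (m + 1))) R := rfl
      _ ≤ s ^ (8 * (m + 1)) * (s ^ j * min (s ^ (j * m)) R) := by
          have := w8_pos hs (m + 1)
          gcongr
      _ = L * w m := by rw [h2, hL, hw, pow_add]; ring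
  have hwR : ∀ m, w m ≤ R * s ^ (8 * m) := fun m => by
    have := w8_pos hs m
    calc w m = s ^ (8 * m) * min (s ^ (j * m)) R := rfl
      _ ≤ s ^ (8 * m) * R := by gcongr; exact min_le_right _ _
      _ = _ := by ring
  have key := grow (T := T) (A₀ := R * M) (D := D) (κ := KN s C b L * M)
    (by positivity) hD0 (d := fun n => ν * s ^ (4 * n)) (fun n => by positivity)
    (w := fun m t => w m * x m t)
    (f := fun m t => w m * Nb s C B (fun m => x m t) (fun m => x m t) m)
    (by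
      intro m t ht
      have h1 := (hx.1 m t ht).const_mul (w m)
      rw [vf_eq] at h1
      exact h1.congr_deriv (by ring))
    (by
      intro m
      rw [abs_mul, abs_of_pos (hw0 m)]
      refine le_trans ?_ (h0 m)
      apply mul_le_mul_of_nonneg_right _ (abs_nonneg _)
      have := w8_pos hs m
      calc w m = s ^ (8 * m) * min (s ^ (j * m)) R := rfl
        _ ≤ s ^ (8 * m) * s ^ (j * m) := by gcongr; exact min_le_left _ _
        _ = _ := by rw [← pow_add]; ring_nf)
    (by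
      intro t ht m
      rw [abs_mul, abs_of_pos (hw0 m)]
      calc w m * |x m t| ≤ R * s ^ (8 * m) * |x m t| := by
            have := hwR m
            gcongr
        _ = R * (s ^ (8 * m) * |x m t|) := by ring
        _ ≤ R * M := by
            have := hM t ht m
            gcongr)
    (by
      intro t ht A hA m
      have hA' : ∀ m, w m * |x m t| ≤ A := by
        intro m
        have := hA m
        rwa [abs_mul, abs_of_pos (hw0 m)] at this
      have h1 := Nb_bound (C := C) hs hB (hM t ht) hw0 hw1 hw2 hA' m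
      rw [abs_mul, abs_of_pos (hw0 m)]
      exact h1) n t ht
  simp only [abs_mul, abs_of_pos (hw0 n)] at key
  have h1 : w n = s ^ ((8 + j) * n) := by
    rw [hw]
    simp only [hR, min_self]
    rw [← pow_add]; ring_nf
  rw [h1] at key
  refine le_trans key ?_
  gcongr
  exact ht.2

theorem weight' {s ν C b T : ℝ} {B : ℕ → ℝ} {x : ℕ → ℝ → ℝ} (hs : 1 < s) (hν : 0 ≤ ν)
    (hB : ∀ j, |B j| ≤ b) (hx : CSol s ν C B T x)
    (h0 : ∀ k : ℕ, ∃ D, ∀ n, s ^ (k * n) * |x n 0| ≤ D) (k : ℕ) :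
    ∃ M, ∀ t ∈ Icc 0 T, ∀ n, s ^ (k * n) * |x n t| ≤ M := by
  obtain ⟨D, hD⟩ := h0 (8 + k)
  obtain ⟨M, hM⟩ := weight hs hν hB hx k hD
  refine ⟨M, fun t ht n => le_trans ?_ (hM t ht n)⟩
  apply mul_le_mul_of_nonneg_right _ (abs_nonneg _)
  exact pow_le_pow_right₀ hs.le (Nat.mul_le_mul_right _ (by omega))

end Pool.Agent.Y37.NS
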