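import Pool.Agent.Y37.NS.Loc

/-! Maximal solutions for the reduced system. -/

open Set Filter Topology MeasureTheory

set_option autoImplicit false

namespace Pool.Agent.Y37.NS

open Pool.Agent.Y5

variable {s ν C b : ℝ} {B : ℕ → ℝ}

theorem RSol.mono {T T' : ℝ} {x : ℕ → ℝ → ℝ} (h : RSol s ν C B T x) (hT : T' ≤ T) :
    RSol s ν C B T' x :=
  ⟨fun n t ht => (h.deriv n t ⟨ht.1, lt_of_lt_of_le ht.2 hT⟩).mono
    (fun _ hr => ⟨hr.1, lt_of_lt_of_le hr.2 hT⟩), fun t ht => h.bdd t (lt_of_lt_of_le ht hT)⟩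

/-- a family of solutions on longer and longer intervals gives a solution -/
theorem RSol.of_local {T : ℝ} {x : ℕ → ℝ → ℝ}
    (h : ∀ t < T, ∃ T', t < T' ∧ ∃ y, RSol s ν C B T' y ∧ ∀ n, ∀ r ∈ Ico 0 T', x n r = y n r) :
    RSol s ν C B T x := by
  constructor
  · intro n t ht
    obtain ⟨T', hT', y, hy, hxy⟩ := h t ht.2
    have h1 := hy.deriv n t ⟨ht.1, hT'⟩
    have h2 : (fun m => x m t) = fun m => y m t := by
      ext m; exact hxy m t ⟨ht.1, hT'⟩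
    rw [h2]
    have h3 : HasDerivWithinAt (x n) (vf s ν C B (fun m => y m t) n) (Ico 0 T') t :=
      h1.congr (fun r hr => hxy n r hr) (hxy n t ⟨ht.1, hT'⟩)
    refine h3.mono_of_mem_nhdsWithin ?_
    have h4 : Iio T' ∈ 𝓝 t := Iio_mem_nhds hT'
    filter_upwards [mem_nhdsWithin_of_mem_nhds h4, self_mem_nhdsWithin] with r hr hr'
    exact ⟨hr'.1, hr⟩
  · intro t ht
    obtain ⟨T', hT', y, hy, hxy⟩ := h t ht
    obtain ⟨M, hM⟩ := hy.bdd t hT'
    refine ⟨M, fun r hr n => ?_⟩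
    rw [hxy n r ⟨hr.1, lt_of_le_of_lt hr.2 hT'⟩]
    exact hM r hr n

/-- translation in time -/
theorem CSol.shift {T t₀ : ℝ} {x : ℕ → ℝ → ℝ} (h : CSol s ν C B T x) (ht₀ : 0 ≤ t₀) :
    CSol s ν C B (T - t₀) (fun n t => x n (t₀ + t)) := by
  obtain ⟨M, hM⟩ := h.2
  refine ⟨fun n t ht => ?_, M, fun t ht n => hM _ ⟨by linarith [ht.1], by linarith [ht.2]⟩ n⟩
  have h1 := h.1 n (t₀ + t) ⟨by linarith [ht.1], by linarith [ht.2]⟩
  have h2 : HasDerivWithinAt (fun r => t₀ + r) 1 (Icc 0 (T - t₀)) t :=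
    (hasDerivWithinAt_id t _).const_add t₀
  have h3 := HasDerivWithinAt.scomp (h := fun r => t₀ + r) (g₁ := x n) (t' := Icc 0 T) t h1 h2
    (fun r hr => ⟨by linarith [hr.1], by linarith [hr.2]⟩)
  rw [one_smul] at h3
  exact h3

theorem CSol.rsol {T : ℝ} {x : ℕ → ℝ → ℝ} (h : CSol s ν C B T x) : RSol s ν C B T x := by
  obtain ⟨M, hM⟩ := h.2
  exact ⟨fun n t ht => (h.1 n t ⟨ht.1, ht.2.le⟩).mono Ico_subset_Icc_self,
    fun T' hT' => ⟨M, fun t ht n => hM t ⟨ht.1, ht.2.trans hT'.le⟩ n⟩⟩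

theorem CSol.mono {T T' : ℝ} {x : ℕ → ℝ → ℝ} (h : CSol s ν C B T x) (hT : T' ≤ T) :
    CSol s ν C B T' x := by
  obtain ⟨M, hM⟩ := h.2
  exact ⟨fun n t ht => (h.1 n t ⟨ht.1, ht.2.trans hT⟩).mono (Icc_subset_Icc_right hT),
    M, fun t ht n => hM t ⟨ht.1, ht.2.trans hT⟩ n⟩

/-- continuation of a bounded solution -/
theorem extend (hs : 1 < s) (hν : 0 ≤ ν) (hB : ∀ j, |B j| ≤ b) {T : ℝ} (hT : 0 < T)
    {x : ℕ → ℝ → ℝ} (hx : RSol s ν C B T x) {M : ℝ}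
    (hM : ∀ t ∈ Ico 0 T, ∀ n, s ^ (8 * n) * |x n t| ≤ M) :
    ∃ T' > T, ∃ y, RSol s ν C B T' y ∧ ∀ n, y n 0 = x n 0 := by
  obtain ⟨τ, hτ, hloc⟩ := local_ex (ν := ν) (C := C) hs hν hB M
  set t₀ := max 0 (T - τ / 2) with ht₀
  have ht₀0 : 0 ≤ t₀ := le_max_left _ _
  have ht₀T : t₀ < T := max_lt hT (by linarith)
  have ht₀1 : T - τ / 2 ≤ t₀ := le_max_right _ _
  obtain ⟨y, hy0, hy⟩ := hloc (fun n => x n t₀) (fun n => hM t₀ ⟨ht₀0, ht₀T⟩ n)
  -- agreement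
  have hag : ∀ n, ∀ t ∈ Ico t₀ T, x n t = y n (t - t₀) := by
    intro n t ht
    have h1 : CSol s ν C B (t - t₀) (fun n r => x n (t₀ + r)) :=
      CSol.shift (RSol.csol hx ht.2) ht₀0
    have h2 : CSol s ν C B (t - t₀) y := CSol.mono hy (by linarith [ht.2])
    have h3 := csol_uniq hs hν hB h1 h2 (fun n => by simp [hy0]) n (t - t₀)
      ⟨by linarith [ht.1], le_rfl⟩
    simpa using h3
  refine ⟨t₀ + τ, by linarith, fun n t => if t < T then x n t else y n (t - t₀), ⟨?_, ?_⟩, ?_⟩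
  · intro n t ht
    rcases lt_or_ge t T with htT | htT
    · have h1 := hx.deriv n t ⟨ht.1, htT⟩
      have h2 : (fun m => if t < T then x m t else y m (t - t₀)) = fun m => x m t := by
        ext m; rw [if_pos htT]
      rw [h2]
      have h3 : HasDerivWithinAt (fun t => if t < T then x n t else y n (t - t₀))
          (vf s ν C B (fun m => x m t) n) (Ico 0 T) t :=
        h1.congr (fun r hr => if_pos hr.2) (if_pos htT)
      refine h3.mono_of_mem_nhdsWithin ?_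
      have h4 : Iio T ∈ 𝓝 t := Iio_mem_nhds htT
      filter_upwards [mem_nhdsWithin_of_mem_nhds h4, self_mem_nhdsWithin] with r hr hr'
      exact ⟨hr'.1, hr⟩
    · have h2 : (fun m => if t < T then x m t else y m (t - t₀)) = fun m => y m (t - t₀) := by
        ext m; rw [if_neg (not_lt.2 htT)]
      rw [h2]
      have h1 := hy.1 n (t - t₀) ⟨by linarith, by linarith [ht.2]⟩
      have h3 : HasDerivAt (y n) (vf s ν C B (fun m => y m (t - t₀)) n) (t - t₀) :=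
        h1.hasDerivAt (Icc_mem_nhds (by linarith) (by linarith [ht.2]))
      have h4 := h3.comp_sub_const t t₀
      have h5 : (fun r => if r < T then x n r else y n (r - t₀)) =ᶠ[𝓝 t] fun r => y n (r - t₀) := by
        have h6 : Ioi t₀ ∈ 𝓝 t := Ioi_mem_nhds (by linarith)
        filter_upwards [h6] with r hr
        split_ifs with h7
        · exact hag n r ⟨le_of_lt hr, h7⟩
        · rfl
      exact (h4.congr_of_eventuallyEq h5).hasDerivWithinAt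
  · intro T' _
    obtain ⟨M', hM'⟩ := hy.2
    refine ⟨max M M', fun t ht n => ?_⟩
    split_ifs with h7
    · exact le_trans (hM t ⟨ht.1, h7⟩ n) (le_max_left _ _)
    · push Not at h7
      have h8 : t < t₀ + τ := by
        have := ht.2
        have h9 : T' < t₀ + τ := by assumption
        linarith
      exact le_trans (hM' _ ⟨by linarith, by linarith⟩ n) (le_max_right _ _)
  · intro n
    exact if_pos hT

theorem t_EXMAX : S_EXMAX := by
  intro s ν C b B x₀ hs hν hB hx₀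
  obtain ⟨M₀, hM₀⟩ := hx₀ 8
  -- the set of existence times
  set 𝒯 := {T : ℝ | 0 < T ∧ ∃ x, (∀ n, x n 0 = x₀ n) ∧ RSol s ν C B T x} with h𝒯
  have hne : 𝒯.Nonempty := by
    obtain ⟨τ, hτ, hloc⟩ := local_ex (ν := ν) (C := C) hs hν hB M₀
    obtain ⟨x, h0, hx⟩ := hloc x₀ hM₀
    exact ⟨τ, hτ, x, h0, CSol.rsol hx⟩
  have huniq : ∀ T T' (x y : ℕ → ℝ → ℝ), RSol s ν C B T x → RSol s ν C B T' y →
      (∀ n, x n 0 = x₀ n) → (∀ n, y n 0 = x₀ n) → ∀ n, ∀ t ∈ Ico 0 (min T T'), x n t = y n t := by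
    intro T T' x y hx hy h0 h0'
    exact t_UNIQ s ν C b _ B x y hs hν hB (RSol.mono hx (min_le_left _ _))
      (RSol.mono hy (min_le_right _ _)) (fun n => by rw [h0, h0'])
  -- the union of the solutions
  classical
  have hsel : ∀ t : ℝ, ∃ z : ℕ → ℝ, ∀ T ∈ 𝒯, t ∈ Ico 0 T → ∀ x : ℕ → ℝ → ℝ, (∀ n, x n 0 = x₀ n) →
      RSol s ν C B T x → ∀ n, z n = x n t := by
    intro t
    by_cases h : ∃ T ∈ 𝒯, t ∈ Ico 0 T
    · obtain ⟨T, ⟨hT0, x, h0, hx⟩, htT⟩ := h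
      refine ⟨fun n => x n t, fun T' _ htT' y h0' hy n => ?_⟩
      exact huniq T T' x y hx hy h0 h0' n t ⟨htT.1, lt_min htT.2 htT'.2⟩
    · refine ⟨fun _ => 0, fun T hT ht => absurd ⟨T, hT, ht⟩ h⟩
  choose z hz using hsel
  set x : ℕ → ℝ → ℝ := fun n t => z t n with hx
  have hxz : ∀ T ∈ 𝒯, ∃ y, (∀ n, y n 0 = x₀ n) ∧ RSol s ν C B T y ∧
      ∀ n, ∀ r ∈ Ico 0 T, x n r = y n r := by
    intro T hT
    obtain ⟨hT0, y, h0, hy⟩ := hT
    exact ⟨y, h0, hy, fun n r hr => hz r T ⟨hT0, y, h0, hy⟩ hr y h0 hy n⟩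
  have hx0 : ∀ n, x n 0 = x₀ n := by
    obtain ⟨T, hT⟩ := hne
    obtain ⟨y, h0, -, hxy⟩ := hxz T hT
    intro n
    rw [hxy n 0 ⟨le_rfl, hT.1⟩, h0]
  refine ⟨x, hx0, ?_⟩
  by_cases hbd : BddAbove 𝒯
  · right
    set T := sSup 𝒯 with hT
    have hT0 : 0 < T := by
      obtain ⟨T', hT'⟩ := hne
      exact lt_of_lt_of_le hT'.1 (le_csSup hbd hT')
    have hR : RSol s ν C B T x := by
      apply RSol.of_local
      intro t ht
      obtain ⟨T', hT', htT'⟩ := exists_lt_of_lt_csSup hne ht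
      obtain ⟨y, h0, hy, hxy⟩ := hxz T' hT'
      exact ⟨T', htT', y, hy, hxy⟩
    refine ⟨T, hT0, hR, fun k T' hT' => ?_, ?_⟩
    · refine weight' hs hν hB (RSol.csol hR hT') (fun k => ?_) k
      obtain ⟨M, hM⟩ := hx₀ k
      exact ⟨M, fun n => by rw [hx0]; exact hM n⟩
    · rintro ⟨M, hM⟩
      obtain ⟨T', hT', y, hy, hy0⟩ := extend hs hν hB hT0 hR hM
      have : T' ∈ 𝒯 := ⟨hT0.trans hT', y, fun n => by rw [hy0, hx0], hy⟩
      exact absurd (le_csSup hbd this) (not_le.2 hT')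
  · left
    intro T
    apply RSol.of_local
    intro t _
    rw [not_bddAbove_iff] at hbd
    obtain ⟨T', hT', htT'⟩ := hbd t
    obtain ⟨y, h0, hy, hxy⟩ := hxz T' hT'
    exact ⟨T', htT', y, hy, hxy⟩

end Pool.Agent.Y37.NS
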